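import Pool.Agent.Helper20_LB.Composite

/-!
# Solutions of Lehmer's congruence assembled from smaller solutions and primes

Call `b > 1` a block if `φ(b) ∣ b - 1`: the blocks are the primes and the composite solutions of
Lehmer's congruence.  A solution `n` cannot be a product of few pairwise coprime blocks.
-/

set_option autoImplicit false

namespace Pool.Agent.Results.MP_b50d59_nt.BlockFactorisations

/-- (1) If `n` satisfies `φ(n) ∣ n - 1` and is the product of a set `B` of at least two pairwise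
coprime numbers `b > 1` with `φ(b) ∣ b - 1`, then `|B| ≥ 3` and
`2|B| n ≤ (2|B| ∏ (b - 1)/φ(b)) ^ (2 ^ |B|)`, where `∏ (b - 1)/φ(b) < (n - 1)/φ(n)`; and
`2 ^ t < (n - 1)/φ(n)` for the number `t` of composite members of `B`.
(2) If `1 < d < n`, `d ∣ n` and both `d` and `n` are solutions, then `n / d` has `r ≥ 2` prime
factors, it is not a solution, and `2(r+1) n ≤ (2(r+1)(d - 1)/φ(d)) ^ (2 ^ (r+1))`. -/
theorem result :
    (∀ (n : ℕ) (B : Finset ℕ), 2 ≤ B.card →
      (∀ b ∈ B, 1 < b ∧ b.totient ∣ b - 1) →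
      (∀ b ∈ B, ∀ c ∈ B, b ≠ c → Nat.Coprime b c) →
      n = ∏ b ∈ B, b → n.totient ∣ n - 1 →
        3 ≤ B.card ∧
        2 * B.card * n ≤ (2 * B.card * ∏ b ∈ B, (b - 1) / b.totient) ^ (2 ^ B.card) ∧
        ∏ b ∈ B, (b - 1) / b.totient < (n - 1) / n.totient ∧
        2 ^ (B.filter fun b => ¬ b.Prime).card < (n - 1) / n.totient) ∧
    (∀ n d : ℕ, 1 < d → d < n → d ∣ n → d.totient ∣ d - 1 → n.totient ∣ n - 1 →
      2 ≤ (n / d).primeFactors.card ∧ ¬ (n / d).totient ∣ n / d - 1 ∧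
      2 * ((n / d).primeFactors.card + 1) * n ≤
        (2 * ((n / d).primeFactors.card + 1) * ((d - 1) / d.totient)) ^
          (2 ^ ((n / d).primeFactors.card + 1))) := by
  refine ⟨fun n B h1 h2 h3 h4 h5 => ?_, fun _ _ h1 h2 h3 h4 h5 =>
    Helper20_LB.multiples h1 h2 h3 h4 h5⟩
  obtain ⟨e1, e2, e3⟩ := Helper20_LB.blocks B h1 h2 h3 h4 h5
  exact ⟨e1, e2, e3, Helper20_LB.composite_blocks B h1 h2 h3 h4 h5⟩

end Pool.Agent.Results.MP_b50d59_nt.BlockFactorisations
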